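import Pool.Agent.Q271.RS.Main

set_option autoImplicit false

/-! # MP_bc03d6_nt: the weighted Khintchine law for random sequences -/

namespace Pool.Agent.Results.MP_bc03d6_nt.AllWeightsAtOnce

open MeasureTheory

/-- The set `W_ω(Ψ)` of all points `x` of the unit cube `[0,1]^n` such that
`|x i - ω j i| < ψ i j` for all `i`, for infinitely many `j`. -/
def W {n : ℕ} (ω : ℕ → Fin n → unitInterval) (ψ : Fin n → ℕ → ℝ) : Set (Fin n → unitInterval) :=
  {x | {j : ℕ | ∀ i, |(x i : ℝ) - (ω j i : ℝ)| < ψ i j}.Infinite}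

/-- **Full (positive) answer to Q1.** Almost every sequence `ω` of points of the unit cube (for the
product of Lebesgue measures) has the property that for *all* tuples `ψ` of positive non-increasing
functions with divergent sum `∑ j, ∏ i, ψ i j` the set `W ω ψ` has full measure. -/
theorem result (n : ℕ) (_hn : 1 ≤ n) :
    ∀ᵐ ω ∂(Measure.infinitePi fun _ : ℕ => (volume : Measure (Fin n → unitInterval))),
      ∀ ψ : Fin n → ℕ → ℝ, (∀ i, Antitone (ψ i)) → (∀ i j, 0 < ψ i j) →
        (¬ Summable fun j => ∏ i, ψ i j) → volume (W ω ψ) = 1 := by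
  have h := Q271.RS.ae_good n
  unfold Q271.RS.Pr at h
  filter_upwards [h] with ω hω ψ h1 h2 h3
  exact Q271.RS.volume_W ω hω ψ h1 h2 h3

end Pool.Agent.Results.MP_bc03d6_nt.AllWeightsAtOnce
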